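import Pool.Agent.H21.BS.TB

/-! row LVL of the board bes_modules (MP_c59857_nt): bookkeeping of the windows -/

set_option autoImplicit false

open Finset Pool.Agent.H6.N4D Pool.Agent.H21.BS

namespace Pool.Agent.H54.BS

theorem sum_blocks (N : ℕ) (f : ℕ → ℂ) (c : ℕ) :
    ∑ x ∈ range (c * N), f x = ∑ k ∈ range c, ∑ x ∈ range N, f (k * N + x) := by
  induction c with
  | zero => simp
  | succ c ih => rw [Finset.sum_range_succ, ← ih, add_mul, one_mul, Finset.sum_range_add]

theorem dvd_s {S : Sys} {W : ℝ} (h : S.Ok W) {i j : ℕ} (hij : i ≤ j) (hj : j ≤ S.K) :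
    S.s i ∣ S.s j := by
  induction j, hij using Nat.le_induction with
  | base => exact dvd_rfl
  | succ j _ ih => exact (ih (by omega)).trans (h.dv j (by omega))

theorem pf_LVL : T_LVL := by
  intro S W h
  have hN : ∀ i ≤ S.K, 0 < S.N i := fun i hi => by
    unfold Sys.N
    have := h.s1 i hi
    positivity
  have hL : 0 < S.L := by
    unfold Sys.L
    have h1 := h.T1
    have h2 := h.s1 S.K le_rfl
    positivity
  have hcnt : ∀ i ≤ S.K, S.cnt i * S.N i = S.L := by
    intro i hi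
    unfold Sys.cnt
    apply Nat.div_mul_cancel
    unfold Sys.N Sys.L
    exact (pow_dvd_pow_of_dvd (dvd_s h hi le_rfl) 2).mul_left _
  have hs : ∀ i j, i ≤ j → j ≤ S.K → S.s i ≤ S.s j := fun i j hij hj =>
    Nat.le_of_dvd (h.s1 j hj) (dvd_s h hij hj)
  have hc0 : ∀ i ≤ S.K, 0 < S.cnt i := by
    intro i hi
    have h1 := hcnt i hi
    rcases Nat.eq_zero_or_pos (S.cnt i) with h0 | h0
    · rw [h0, zero_mul] at h1; omega
    · exact h0
  refine ⟨fun i hi => ⟨hN i hi, hs 0 i (Nat.zero_le _) hi, hcnt i hi, hL, fun f => ?_⟩,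
    ?_, ?_, ?_, ?_⟩
  · rw [← hcnt i hi, sum_blocks (S.N i) (fun x => f (S.U + x))]
    refine Finset.sum_congr rfl fun k _ => Finset.sum_congr rfl fun x _ => ?_
    rw [add_assoc]
  · intro i j hij hj
    obtain ⟨d, hd⟩ := dvd_s h hij hj
    refine ⟨d ^ 2, ?_, ?_⟩
    · unfold Sys.N; rw [hd]; ring
    · have h1 := hcnt j hj
      have h2 := hcnt i (hij.trans hj)
      have h3 : S.N j = d ^ 2 * S.N i := by unfold Sys.N; rw [hd]; ring
      rw [h3, ← mul_assoc, ← h2] at h1
      exact (Nat.eq_of_mul_eq_mul_right (hN i (hij.trans hj)) h1).symm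
  · intro i j hij hj
    obtain ⟨j', rfl⟩ : ∃ j', j = j' + 1 := ⟨j - 1, by omega⟩
    have h1 := h.ks j' (by omega)
    have h2 := h.Ps j' (by omega)
    have h3 := hs i j' (by omega) (by omega)
    have h4 := (h.ok (j' + 1) (by omega) hj 0 (hc0 _ hj)).k0
    refine ⟨?_, h3.trans h2⟩
    have h5 : (S.s i : ℝ) ≤ S.s j' := by exact_mod_cast h3
    nlinarith
  · intro i hi1 hi k hk c hc
    have h1 := h.ok i hi1 hi k hk
    exact ⟨h1.pr, h1.lo, h1.up, h1.wt, h1.P1, h1.k0, h1.k1, h1.k2, h1.bv, h1.nc,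
      fun q _ => hc q⟩
  · intro c i k x hi _ hx
    unfold Sys.Om
    have h1 : (S.U + k * S.N i + x - S.U) / S.N i = k := by
      rw [add_assoc, Nat.add_sub_cancel_left]
      rw [Nat.div_eq_of_lt_le]
      · omega
      · rw [add_mul, one_mul]; omega
    rw [h1]

end Pool.Agent.H54.BS
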